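import Pool.Agent.CPT.StmtsA

/-! Squad CPT, row DEG: a space of polynomials contains polynomials of strictly increasing degree. -/

set_option autoImplicit false

namespace Pool.Agent.CPT.H85

open Polynomial

theorem deg : DegStmt := by
  intro E _ ρ
  induction ρ with
  | zero =>
    intro W _ _
    exact ⟨fun i => i.elim0, fun i => i.elim0, fun i => i.elim0, fun i => i.elim0⟩
  | succ ρ ih =>
    intro W hW hr
    -- a degree bound
    have hex : ∃ D : ℕ, W ≤ degreeLT E D := by
      obtain ⟨s, hs⟩ := (Submodule.fg_top W).1 hW.fg_top
      refine ⟨s.sup natDegree + 1, ?_⟩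
      rw [← hs, Submodule.span_le]
      intro w hw
      rw [SetLike.mem_coe, mem_degreeLT]
      refine lt_of_le_of_lt degree_le_natDegree (WithBot.coe_lt_coe.2 ?_)
      exact Nat.lt_succ_of_le (Finset.le_sup (f := natDegree) hw)
    classical
    let D := Nat.find hex
    have hD : W ≤ degreeLT E D := Nat.find_spec hex
    have hD0 : 0 < D := by
      rcases Nat.eq_zero_or_pos D with h0 | h0
      · exfalso
        have h1 : W = ⊥ := by
          rw [eq_bot_iff]
          intro w hw
          have h2 := hD hw
          rw [h0, mem_degreeLT] at h2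
          rw [Submodule.mem_bot]
          by_contra hne
          rw [degree_eq_natDegree hne] at h2
          exact absurd (WithBot.coe_lt_coe.1 h2) (Nat.not_lt_zero _)
        rw [h1, finrank_bot] at hr
        omega
      · exact h0
    obtain ⟨d, hd⟩ : ∃ d, D = d + 1 := ⟨D - 1, by omega⟩
    have hnot : ¬ W ≤ degreeLT E d := fun h => Nat.find_min hex (by omega : d < D) h
    rw [SetLike.not_le_iff_exists] at hnot
    obtain ⟨b, hbW, hbn⟩ := hnot
    have hbc : b.coeff d ≠ 0 := by
      intro h0
      apply hbn
      rw [mem_degreeLT, degree_lt_iff_coeff_zero]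
      intro m hm
      rcases Nat.eq_or_lt_of_le hm with h1 | h1
      · rw [← h1]; exact h0
      · have h2 := hD hbW
        rw [hd, mem_degreeLT, degree_lt_iff_coeff_zero] at h2
        exact h2 m h1
    -- the kernel of the coefficient functional
    let f : W →ₗ[E] E := (lcoeff E d).domRestrict W
    have hf : ∀ w : W, f w = (w : E[X]).coeff d := fun w => rfl
    have hsurj : Function.Surjective f := by
      intro e
      refine ⟨(e / b.coeff d) • ⟨b, hbW⟩, ?_⟩
      rw [map_smul, hf, smul_eq_mul]
      exact div_mul_cancel₀ e hbc
    let W' : Submodule E E[X] := (LinearMap.ker f).map W.subtype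
    have hrk : Module.finrank E W' = ρ := by
      have h1 := LinearMap.finrank_range_add_finrank_ker f
      rw [LinearMap.range_eq_top.2 hsurj, finrank_top, Module.finrank_self, hr] at h1
      have h2 : Module.finrank E W' = Module.finrank E (LinearMap.ker f) :=
        Submodule.finrank_map_subtype_eq W (LinearMap.ker f)
      omega
    have hfin : Module.Finite E W' := Module.Finite.map (LinearMap.ker f) W.subtype
    obtain ⟨b', hb1, hb2, hb3⟩ := ih W' hfin hrk
    have hW' : ∀ w ∈ W', w ∈ W ∧ w.coeff d = 0 := by
      rintro _ ⟨w, hw, rfl⟩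
      exact ⟨w.2, LinearMap.mem_ker.1 hw⟩
    have hdeg : ∀ k, (b' k).natDegree < b.natDegree := by
      intro k
      obtain ⟨h1, h2⟩ := hW' _ (hb1 k)
      refine lt_of_lt_of_le ?_ (le_natDegree_of_ne_zero hbc)
      rw [natDegree_lt_iff_degree_lt (hb2 k), degree_lt_iff_coeff_zero]
      intro m hm
      rcases Nat.eq_or_lt_of_le hm with h3 | h3
      · rw [← h3]; exact h2
      · have h4 := hD h1
        rw [hd, mem_degreeLT, degree_lt_iff_coeff_zero] at h4
        exact h4 m h3
    have hb0 : b ≠ 0 := by
      intro h0
      rw [h0, coeff_zero] at hbc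
      exact hbc rfl
    let c : Fin (ρ + 1) → E[X] := Fin.snoc b' b
    have hc1 : ∀ k : Fin ρ, c k.castSucc = b' k := fun k => Fin.snoc_castSucc (α := fun _ => E[X]) b b' k
    have hc2 : c (Fin.last ρ) = b := Fin.snoc_last (α := fun _ => E[X]) b b'
    refine ⟨c, fun k => ?_, fun k => ?_, fun i j hij => ?_⟩
    · induction k using Fin.lastCases with
      | last => rw [hc2]; exact hbW
      | cast k => rw [hc1]; exact (hW' _ (hb1 k)).1
    · induction k using Fin.lastCases with
      | last => rw [hc2]; exact hb0
      | cast k => rw [hc1]; exact hb2 k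
    · change (c i).natDegree < (c j).natDegree
      induction j using Fin.lastCases with
      | last =>
        induction i using Fin.lastCases with
        | last => exact absurd hij (lt_irrefl _)
        | cast i => rw [hc1, hc2]; exact hdeg i
      | cast j =>
        induction i using Fin.lastCases with
        | last => exact absurd hij (not_lt.2 (Fin.le_last _))
        | cast i =>
          rw [hc1, hc1]
          exact hb3 (Fin.castSucc_lt_castSucc_iff.1 hij)

end Pool.Agent.CPT.H85
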